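import Pool.Agent.N984.QX.Stm

/-!
# Project QX (helper984), leaf CARD: a self-dual additive code over `F_4` has `2^n` elements
-/

set_option autoImplicit false

namespace Pool.Agent.N881.QX

open Pool.Agent.N984.QX

theorem B_symm {n : ℕ} (v w : Vc n) : B v w = B w v := by
  unfold B
  refine Finset.sum_congr rfl fun i _ => ?_
  ring

theorem B_add_left {n : ℕ} (v v' w : Vc n) : B (v + v') w = B v w + B v' w := by
  unfold B
  rw [← Finset.sum_add_distrib]
  refine Finset.sum_congr rfl fun i _ => ?_
  simp only [Pi.add_apply, Prod.fst_add, Prod.snd_add]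
  ring

theorem B_smul_left {n : ℕ} (c : ZMod 2) (v w : Vc n) : B (c • v) w = c • B v w := by
  unfold B
  rw [Finset.smul_sum]
  refine Finset.sum_congr rfl fun i _ => ?_
  simp only [Pi.smul_apply, Prod.smul_fst, Prod.smul_snd, smul_eq_mul]
  ring

/-- The form `B` as a bilinear form. -/
def Bf (n : ℕ) : LinearMap.BilinForm (ZMod 2) (Vc n) :=
  LinearMap.mk₂ (ZMod 2) B B_add_left B_smul_left
    (fun v w w' => by rw [B_symm, B_add_left, B_symm w, B_symm w'])
    (fun c v w => by rw [B_symm, B_smul_left, B_symm w])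

theorem Bf_apply {n : ℕ} (v w : Vc n) : Bf n v w = B v w := rfl

theorem B_single {n : ℕ} (v : Vc n) (i : Fin n) (a b : ZMod 2) :
    B v (Pi.single i (a, b)) = (v i).1 * b + (v i).2 * a := by
  unfold B
  rw [Finset.sum_eq_single i]
  · simp
  · intro j _ hj
    rw [Pi.single_eq_of_ne hj]
    simp
  · intro h
    exact absurd (Finset.mem_univ i) h

theorem Bf_sepLeft (n : ℕ) : (Bf n).SeparatingLeft := by
  intro v hv
  funext i
  have h1 := hv (Pi.single i (1, 0))
  have h2 := hv (Pi.single i (0, 1))
  rw [Bf_apply, B_single] at h1 h2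
  refine Prod.ext ?_ ?_
  · simpa using h2
  · simpa using h1

theorem Bf_nondegenerate (n : ℕ) : (Bf n).Nondegenerate := by
  refine ⟨Bf_sepLeft n, ?_⟩
  intro v hv
  refine Bf_sepLeft n v fun w => ?_
  have := hv w
  rw [Bf_apply] at this ⊢
  rw [B_symm]
  exact this

theorem orthogonal_eq {n : ℕ} (C : Submodule (ZMod 2) (Vc n)) (hC : SelfDual C) :
    (Bf n).orthogonal C = C := by
  ext v
  rw [LinearMap.BilinForm.mem_orthogonal_iff, hC v]
  refine forall₂_congr fun w _ => ?_
  rw [B_symm]
  rfl

theorem finrank_Vc (n : ℕ) : Module.finrank (ZMod 2) (Vc n) = 2 * n := by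
  rw [Module.finrank_pi_fintype]
  simp
  ring

/-- The theorem of the leaf: a self-dual code has `2^n` elements. -/
theorem t_CARD : S_CARD := by
  intro n C hC
  have h1 := LinearMap.BilinForm.finrank_orthogonal (Bf_nondegenerate n) C
  rw [orthogonal_eq C hC, finrank_Vc] at h1
  have h2 : Module.finrank (ZMod 2) C ≤ 2 * n := by
    rw [← finrank_Vc]
    exact Submodule.finrank_le C
  have h3 : Module.finrank (ZMod 2) C = n := by omega
  have h4 : Nat.card C = Nat.card (ZMod 2) ^ Module.finrank (ZMod 2) C :=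
    Module.natCard_eq_pow_finrank
  rw [h4, h3]
  simp

end Pool.Agent.N881.QX
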